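import Pool.Agent.Q80.KT.Stm

/-!
# Functions of the ball depend only on the explored pairs (KT-DEP)
-/

set_option autoImplicit false

open Finset MeasureTheory Filter Topology
open scoped Classical ENNReal NNReal

noncomputable section

namespace Q176.KT.DEP

open Pool.Agent.Q80.KT Pool.Agent.Q287.SR

lemma aux (h1 : S_DET) (n : ℕ) (v : Fin n) (r : ℕ) (f : SimpleGraph (Fin n) → ℝ)
    (S S' : Finset (Fin n)) (hr : 1 ≤ r) (hf : BM v r f) (G G' : SimpleGraph (Fin n))
    (h : ∀ e ∈ DS S S', (e ∈ G.edgeSet ↔ e ∈ G'.edgeSet))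
    (hS : ball G v r = S) (hS' : ball G v (r - 1) = S') :
    (ball G' v r = S ∧ ball G' v (r - 1) = S') ∧ f G = f G' := by
  subst hS hS'
  obtain ⟨h2, -⟩ := h1 n G G' v r hr h
  have h3 := h2 r le_rfl
  have h4 := h2 (r - 1) (Nat.sub_le _ _)
  refine ⟨⟨h3, h4⟩, hf G G' h3.symm h4.symm ?_⟩
  intro a ha b hb
  have h5 := h s(a, b) (Or.inl (by
    intro c hc
    rcases Sym2.mem_iff.1 hc with rfl | rfl
    · exact ha
    · exact hb))
  simpa using h5

theorem t_DEP (h1 : S_DET) : S_DEP := by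
  intro n v r f S S' hr hf G G' h
  by_cases hG : ball G v r = S ∧ ball G v (r - 1) = S'
  · obtain ⟨h2, h3⟩ := aux h1 n v r f S S' hr hf G G' h hG.1 hG.2
    simp only [ind, if_pos hG, if_pos h2, h3]
  · by_cases hG' : ball G' v r = S ∧ ball G' v (r - 1) = S'
    · obtain ⟨h2, -⟩ := aux h1 n v r f S S' hr hf G' G (fun e he => (h e he).symm) hG'.1 hG'.2
      exact absurd h2 hG
    · simp only [ind, if_neg hG, if_neg hG', mul_zero]

end Q176.KT.DEP
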