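import Pool.Agent.Q176.KT.RateA
import Pool.Agent.Q234.KT.Stm3

/-!
# Local convergence at a polynomial rate for a uniformly stable gap
-/

set_option autoImplicit false
set_option linter.unusedSectionVars false

open scoped BigOperators Topology
open Finset Filter
open Pool.Agent.H4R2
open Pool.Agent.Y665.PE

namespace Pool.Agent.Q176.KT

theorem size_le_of_entries {n : Type*} [Fintype n] (O : Matrix n n ℂ) (h : ∀ a b, ‖O a b‖ ≤ 2) :
    size O ≤ 2 * (Fintype.card n : ℝ) ^ 2 := by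
  unfold size
  have h1 : ∑ a : n, ∑ b : n, ‖O a b‖ ≤ ∑ _a : n, ∑ _b : n, (2 : ℝ) :=
    Finset.sum_le_sum fun a _ => Finset.sum_le_sum fun b _ => h a b
  refine h1.trans (le_of_eq ?_)
  simp only [Finset.sum_const, Finset.card_univ, nsmul_eq_mul]
  ring

/-- Convergence of the expectations with explicit sizes. -/
theorem conv_sz (R : Finset (ℤ × ℤ)) {k O : Matrix (R → Fin 2) (R → Fin 2) ℂ}
    (hk : k.IsHermitian) (hO : O.IsHermitian)
    (ψ : ∀ (L : ℕ) [NeZero L], (Site L → Fin 2) → ℂ) (s : ℝ) (hs : 0 < s) (L₁ : ℕ)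
    (hψ : ∀ (L : ℕ) [NeZero L], L₁ ≤ L → normSq (ψ L) = 1 ∧
      IsGappedGround (ham R k L) 1 (ψ L) ∧
      ∀ t : ℝ, 0 < t → t ≤ s → ∃ φ : (Site L → Fin 2) → ℂ, normSq φ = 1 ∧
        IsGappedGround (ham R k L + (t : ℂ) • ham R O L) 1 φ)
    (Sg : ℝ) (hSg : size O ≤ Sg) (s₁ K c ε η : ℝ) (hs₁ : s₁ = size k + s * Sg)
    (hK : K = 8 * (R.card : ℝ) ^ 4 * s₁ * Sg ^ 2) (hc0 : 0 < c) (hcs : c ≤ s)
    (hcK : K * c ≤ 1 / 2) (hη0 : 0 < η) (hη1 : η ≤ 1) (hε0 : 0 < ε)
    (hsε : s₁ * ε ≤ η * (c * η) / 4) :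
    ∀ (L L' : ℕ) [NeZero L] [NeZero L'], sz R ε ≤ L → sz R ε ≤ L' → L₁ ≤ L → L₁ ≤ L' →
      |(pair O (redState R (ψ L))).re - (pair O (redState R (ψ L'))).re| ≤ η := by
  intro L L' _ _ hL hL' hL1 hL1'
  have hsO := size_nonneg O
  have hsk := size_nonneg k
  have hSg0 : 0 ≤ Sg := hsO.trans hSg
  have hs0 : 0 ≤ s₁ := by rw [hs₁]; exact add_nonneg hsk (mul_nonneg hs.le hSg0)
  have hK0 : 0 ≤ K := by rw [hK]; positivity
  set T := c * η with hT
  have hT0 : 0 < T := mul_pos hc0 hη0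
  have hTs : T ≤ s := by
    have : c * η ≤ c * 1 := mul_le_mul_of_nonneg_left hη1 hc0.le
    rw [hT]
    linarith
  have hKT : K * T ≤ η / 2 := by
    have h1 : K * c * η ≤ 1 / 2 * η := mul_le_mul_of_nonneg_right hcK hη0.le
    rw [hT]
    linarith
  have hs₁' : size k + s * size O ≤ s₁ := by
    rw [hs₁]
    have := mul_le_mul_of_nonneg_left hSg hs.le
    linarith
  have hKO : 8 * (R.card : ℝ) ^ 4 * (size k + s * size O) * size O ^ 2 / 1 ^ 2 ≤ K := by
    rw [hK, one_pow, div_one]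
    have h1 : size O ^ 2 ≤ Sg ^ 2 := pow_le_pow_left₀ hsO hSg 2
    have h2 : 0 ≤ size k + s * size O := add_nonneg hsk (mul_nonneg hs.le hsO)
    have h3 : 0 ≤ 8 * (R.card : ℝ) ^ 4 := by positivity
    have h4 := mul_le_mul hs₁' h1 (sq_nonneg _) hs0
    have h5 := mul_le_mul_of_nonneg_left h4 h3
    linarith
  have main : ∀ (L : ℕ) [NeZero L], L₁ ≤ L → ∃ φ : (Site L → Fin 2) → ℂ, _ :=
    fun L _ hL => one_size R hk hO one_pos hT0 hTs (ψ L) (hψ L hL).1 (hψ L hL).2.1 (hψ L hL).2.2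
  obtain ⟨φ, h1, h2, h3, h4, h5⟩ := main L hL1
  obtain ⟨φ', h1', h2', h3', h4', h5'⟩ := main L' hL1'
  have g0 := isGround_of_gapped (ham_herm (L := L) R hk) zero_le_one (hψ L hL1).2.1
  have g0' := isGround_of_gapped (ham_herm (L := L') R hk) zero_le_one (hψ L' hL1').2.1
  have t0 := transInv_of_ground R k 1 (ψ L) (hψ L hL1).2.1
  have t0' := transInv_of_ground R k 1 (ψ L') (hψ L' hL1').2.1
  have c1 := energy_close_sz R ε hε0 L L' hL hL' _ φ φ' h3 h1 h2 h3' h1' h2'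
  have c0 := energy_close_sz R ε hε0 L L' hL hL' _ (ψ L) (ψ L') g0 (hψ L hL1).1 t0 g0'
    (hψ L' hL1').1 t0'
  have z1 : (∑ a, ∑ b, ‖(k + (T : ℂ) • O) a b‖) * ε ≤ η * T / 4 := by
    refine le_trans ?_ hsε
    refine mul_le_mul_of_nonneg_right ?_ hε0.le
    exact (size_add_le k O T s hT0.le hTs).trans hs₁'
  have z0 : (∑ a, ∑ b, ‖k a b‖) * ε ≤ η * T / 4 := by
    refine le_trans ?_ hsε
    apply mul_le_mul_of_nonneg_right _ hε0.le
    have : size k ≤ s₁ := by
      rw [hs₁]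
      have := mul_nonneg hs.le hSg0
      linarith
    exact this
  have a1 := abs_le.mp (c1.trans z1)
  have a0 := abs_le.mp (c0.trans z0)
  have hT2 : 0 ≤ T ^ 2 := sq_nonneg T
  have hKO2 := mul_le_mul_of_nonneg_right hKO hT2
  have hKT2 : K * T ^ 2 ≤ η / 2 * T := by nlinarith
  rw [abs_le]
  constructor
  · have : -(η * T) ≤ ((pair O (redState R (ψ L))).re - (pair O (redState R (ψ L'))).re) * T := by
      nlinarith [a1.1, a1.2, a0.1, a0.2]
    nlinarith
  · have : ((pair O (redState R (ψ L))).re - (pair O (redState R (ψ L'))).re) * T ≤ η * T := by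
      nlinarith [a1.1, a1.2, a0.1, a0.2]
    exact le_of_mul_le_mul_right this hT0

/-- expectations of Hermitian matrices with entries at most `2` determine the entries -/
theorem entries_of_pair {R : Finset (ℤ × ℤ)} (ψ : ∀ (L : ℕ) [NeZero L], (Site L → Fin 2) → ℂ)
    (η : ℝ) (L L' : ℕ) [NeZero L] [NeZero L']
    (h : ∀ O : Matrix (R → Fin 2) (R → Fin 2) ℂ, O.IsHermitian → (∀ a b, ‖O a b‖ ≤ 2) →
      |(pair O (redState R (ψ L))).re - (pair O (redState R (ψ L'))).re| ≤ η)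
    (a b : R → Fin 2) : ‖redState R (ψ L) a b - redState R (ψ L') a b‖ ≤ η := by
  classical
  have hO1 : (Matrix.single a b (1 : ℂ) + Matrix.single b a (1 : ℂ)).IsHermitian := by
    unfold Matrix.IsHermitian
    rw [Matrix.conjTranspose_add, Matrix.conjTranspose_single, Matrix.conjTranspose_single]
    simp [add_comm]
  have hO2 : (Matrix.single a b Complex.I + Matrix.single b a (-Complex.I)).IsHermitian := by
    unfold Matrix.IsHermitian
    rw [Matrix.conjTranspose_add, Matrix.conjTranspose_single, Matrix.conjTranspose_single]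
    simp [add_comm]
  have hs : ∀ (a b : R → Fin 2) (z : ℂ), ‖z‖ ≤ 1 → ∀ x y, ‖Matrix.single a b z x y‖ ≤ 1 := by
    intro a b z hz x y
    rw [Matrix.single_apply]
    split_ifs
    · exact hz
    · rw [norm_zero]; exact zero_le_one
  have hE : ∀ (a b : R → Fin 2) (z z' : ℂ), ‖z‖ ≤ 1 → ‖z'‖ ≤ 1 → ∀ x y,
      ‖(Matrix.single a b z + Matrix.single b a z') x y‖ ≤ 2 := by
    intro a b z z' hz hz' x y
    rw [Matrix.add_apply]
    refine (norm_add_le _ _).trans ?_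
    have h1 := hs a b z hz x y
    have h2 := hs b a z' hz' x y
    linarith
  have e3 := h _ hO1 (hE a b 1 1 (by simp) (by simp))
  have e4 := h _ hO2 (hE a b Complex.I (-Complex.I) (by simp) (by simp))
  have hba : ∀ (L : ℕ) [NeZero L], redState R (ψ L) b a = star (redState R (ψ L) a b) := by
    intro L _
    exact ((redState_herm R (ψ L)).apply b a).symm
  have f1 : ∀ (L : ℕ) [NeZero L], (pair (Matrix.single a b (1 : ℂ) + Matrix.single b a (1 : ℂ))
      (redState R (ψ L))).re = 2 * (redState R (ψ L) a b).re := by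
    intro L _
    rw [pair_add, pair_single, pair_single, hba L]
    simp
    ring
  have f2 : ∀ (L : ℕ) [NeZero L], (pair (Matrix.single a b Complex.I +
      Matrix.single b a (-Complex.I)) (redState R (ψ L))).re =
        2 * (redState R (ψ L) a b).im := by
    intro L _
    rw [pair_add, pair_single, pair_single, hba L]
    simp
    ring
  rw [f1 L, f1 L'] at e3
  rw [f2 L, f2 L'] at e4
  have g3 : |(redState R (ψ L) a b - redState R (ψ L') a b).re| ≤ η / 2 := by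
    rw [Complex.sub_re]
    rw [abs_le] at e3 ⊢
    constructor <;> linarith [e3.1, e3.2]
  have g4 : |(redState R (ψ L) a b - redState R (ψ L') a b).im| ≤ η / 2 := by
    rw [Complex.sub_im]
    rw [abs_le] at e4 ⊢
    constructor <;> linarith [e4.1, e4.2]
  refine (Complex.norm_le_abs_re_add_abs_im _).trans ?_
  linarith

theorem main : Pool.Agent.Q234.KT.RateS := by
  intro R k s L₁ ψ hk hs hψ hst
  obtain ⟨C₂, hC₂, hsz⟩ := sz_le R
  set Sg : ℝ := 2 * (Fintype.card (R → Fin 2) : ℝ) ^ 2 with hSg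
  have hSg0 : 0 ≤ Sg := by rw [hSg]; positivity
  set s₁ : ℝ := size k + s * Sg with hs₁
  have hs0 : 0 ≤ s₁ := add_nonneg (size_nonneg k) (mul_nonneg hs.le hSg0)
  set K : ℝ := 8 * (R.card : ℝ) ^ 4 * s₁ * Sg ^ 2 with hK
  have hK0 : 0 ≤ K := by rw [hK]; positivity
  set c : ℝ := min s (1 / (2 * (K + 1))) with hc
  have hc0 : 0 < c := lt_min hs (by positivity)
  have hcs : c ≤ s := min_le_left _ _
  have hcK : K * c ≤ 1 / 2 := by
    have h1 : c ≤ 1 / (2 * (K + 1)) := min_le_right _ _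
    have h2 : K * (1 / (2 * (K + 1))) ≤ 1 / 2 := by
      rw [mul_one_div, div_le_div_iff₀ (by positivity) two_pos]
      nlinarith
    exact (mul_le_mul_of_nonneg_left h1 hK0).trans h2
  set c' : ℝ := min 1 (c / (4 * (s₁ + 1))) with hc'
  have hc'0 : 0 < c' := lt_min one_pos (by positivity)
  have hc'1 : c' ≤ 1 := min_le_left _ _
  have hsc' : s₁ * c' ≤ c / 4 := by
    have h1 : c' ≤ c / (4 * (s₁ + 1)) := min_le_right _ _
    have h2 : s₁ * (c / (4 * (s₁ + 1))) ≤ c / 4 := by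
      rw [mul_div_assoc', div_le_div_iff₀ (by positivity) (by norm_num)]
      nlinarith
    exact (mul_le_mul_of_nonneg_left h1 hs0).trans h2
  refine ⟨C₂ / c' ^ 2 + L₁ + 1, by positivity, ?_⟩
  intro η hη0 hη1 L L' _ _ hL hL' a b
  have hη4 : η ^ 4 ≤ 1 := pow_le_one₀ hη0.le hη1
  have hη2 : η ^ 2 ≤ 1 := pow_le_one₀ hη0.le hη1
  set ε : ℝ := c' * η ^ 2 with hε
  have hε0 : 0 < ε := by rw [hε]; positivity
  have hε1 : ε ≤ 1 := by
    rw [hε]
    have h1 : c' * η ^ 2 ≤ 1 * 1 := mul_le_mul hc'1 hη2 (by positivity) zero_le_one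
    linarith
  have hsε : s₁ * ε ≤ η * (c * η) / 4 := by
    rw [hε]
    have h1 := mul_le_mul_of_nonneg_right hsc' (sq_nonneg η)
    nlinarith
  have big : ∀ L : ℕ, (C₂ / c' ^ 2 + L₁ + 1) / η ^ 4 ≤ L → sz R ε ≤ L ∧ L₁ ≤ L := by
    intro L hL
    have h4 : 0 < η ^ 4 := by positivity
    have hA : 0 ≤ C₂ / c' ^ 2 := by positivity
    have h5 : C₂ / c' ^ 2 / η ^ 4 ≤ L := by
      refine le_trans ?_ hL
      rw [div_le_div_iff_of_pos_right h4]
      have : (0 : ℝ) ≤ L₁ := Nat.cast_nonneg _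
      linarith
    have h6 : (L₁ : ℝ) ≤ L := by
      refine le_trans ?_ hL
      rw [le_div_iff₀ h4]
      have h7 : (0 : ℝ) ≤ L₁ := Nat.cast_nonneg _
      have h8 : (L₁ : ℝ) * η ^ 4 ≤ L₁ * 1 := mul_le_mul_of_nonneg_left hη4 h7
      linarith
    have h9 : C₂ / ε ^ 2 = C₂ / c' ^ 2 / η ^ 4 := by
      rw [hε, div_div]
      congr 1
      ring
    have h10 := hsz ε hε0 hε1
    rw [h9] at h10
    exact ⟨by exact_mod_cast h10.trans h5, by exact_mod_cast h6⟩
  obtain ⟨b1, b2⟩ := big L hL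
  obtain ⟨b1', b2'⟩ := big L' hL'
  refine entries_of_pair ψ η L L' (fun O hO hO2 => ?_) a b
  exact conv_sz R hk hO ψ s hs L₁ (fun L _ hL => ⟨(hψ L hL).1, (hψ L hL).2, fun t ht0 ht =>
    hst L hL O hO hO2 t ht0 ht⟩) Sg (size_le_of_entries O hO2) s₁ K c ε η hs₁ hK hc0 hcs hcK hη0
    hη1 hε0 hsε L L' b1 b1' b2 b2'

end Pool.Agent.Q176.KT
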